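import Pool.Agent.H30.VX.Targets

/-!
# Board vex_modules, row HUB (helper10): the hub lemma
-/

set_option autoImplicit false

open Finset Pool.Agent.H48.CE Pool.Agent.H30.VR

namespace Pool.Agent.H10.VX

open Pool.Agent.H30.VX

theorem card_cn_ge {V : Type} {G : SimpleGraph V} {B : Finset V} {u v : V}
    (hu : 9 * B.card ≤ 10 * (nb G B u).card) (hv : 9 * B.card ≤ 10 * (nb G B v).card) :
    8 * B.card ≤ 10 * (cn G B u v).card := by
  classical
  have h1 : cn G B u v = nb G B u ∩ nb G B v := by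
    ext w
    rw [mem_cn, mem_inter, mem_nb, mem_nb]
    tauto
  have h2 : (nb G B u ∪ nb G B v).card ≤ B.card := by
    refine card_le_card (union_subset ?_ ?_)
    · intro w hw; exact (mem_nb.1 hw).1
    · intro w hw; exact (mem_nb.1 hw).1
  have h3 := card_union_add_card_inter (nb G B u) (nb G B v)
  rw [h1]
  omega

theorem pf_HUB (hHK : T_HK) (hEXC : T_EXC) (hVCM : T_VCM) (hHBC : T_HBC) : T_HUB := by
  classical
  refine ⟨100000, ?_⟩
  intro k hk V _ G X H B ε hε hrun hHX hBX hC hff
  obtain ⟨hdis, hHc, hBc, hHB⟩ := hC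
  have hkR : (100000 : ℝ) ≤ k := by exact_mod_cast hk
  have hεk : ε * k ≤ k / 2000 := by
    have := mul_le_mul_of_nonneg_right hε (by linarith : (0 : ℝ) ≤ k)
    linarith
  have hH2 : 1999 * k ≤ 2000 * H.card := by
    have h : (1999 : ℝ) * k ≤ 2000 * H.card := by nlinarith
    exact_mod_cast h
  have hB2 : 7 * k ≤ 5 * B.card := by
    have h : (7 : ℝ) * k ≤ 5 * B.card := by linarith
    exact_mod_cast h
  set Hs : Finset V := X.filter (fun v => 9 * B.card ≤ 10 * (nb G B v).card) with hHs
  have hHHs : H ⊆ Hs := by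
    intro v hv
    rw [hHs, mem_filter]
    refine ⟨hHX hv, ?_⟩
    have h1 := hHB v hv
    have h2 : (0 : ℝ) ≤ B.card := Nat.cast_nonneg _
    have h3 : (9 : ℝ) * B.card ≤ 10 * (nb G B v).card := by nlinarith
    exact_mod_cast h3
  have hHs9 : ∀ v ∈ Hs, 9 * B.card ≤ 10 * (nb G B v).card := by
    intro v hv
    rw [hHs, mem_filter] at hv
    exact hv.2
  -- a bound for the common neighbours outside a set of hubs
  have hout : ∀ H' : Finset V, H' ⊆ Hs → ∀ m : ℕ, (H'.filter (fun w => w ∈ B)).card ≤ m →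
      ∀ u ∈ H', ∀ v ∈ H',
        8 * B.card ≤ 10 * ((cn G B u v).filter (fun w => w ∉ H')).card + 10 * m := by
    intro H' hH' m hm u hu v hv
    have h1 := card_cn_ge (hHs9 u (hH' hu)) (hHs9 v (hH' hv))
    have h2 : (cn G B u v).card ≤ ((cn G B u v).filter (fun w => w ∉ H')).card +
        (H'.filter (fun w => w ∈ B)).card := by
      have h3 : cn G B u v ⊆ (cn G B u v).filter (fun w => w ∉ H') ∪
          H'.filter (fun w => w ∈ B) := by
        intro w hw
        rw [mem_union, mem_filter, mem_filter]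
        by_cases hwH : w ∈ H'
        · exact Or.inr ⟨hwH, (mem_cn.1 hw).1⟩
        · exact Or.inl ⟨hw, hwH⟩
      exact (card_le_card h3).trans (card_union_le _ _)
    omega
  -- hubs in B
  have hinB : ∀ H' : Finset V, H ⊆ H' → (H'.filter (fun w => w ∈ B)).card + H.card ≤ H'.card := by
    intro H' hH'
    have h1 : Disjoint (H'.filter (fun w => w ∈ B)) H := by
      rw [disjoint_left]
      intro w hw hwH
      exact hdis w hwH (mem_filter.1 hw).2
    rw [← card_union_of_disjoint h1]
    exact card_le_card (union_subset (filter_subset _ _) hH')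
  have hHsk : Hs.card ≤ k := by
    by_contra hcon
    have hcon' : k + 1 ≤ Hs.card := by omega
    refine hrun ?_
    rcases Nat.lt_or_ge H.card (k + 2) with h1 | h1
    · obtain ⟨H', h2, h3, h4⟩ := exists_subsuperset_card_eq hHHs (show H.card ≤ k + 1 by omega)
        hcon'
      refine hHK G H' B k (by omega) h4 ?_
      intro u hu v hv _
      have h5 := hinB H' h2
      have h6 := hout H' h3 (H'.card - H.card) (by omega) u hu v hv
      omega
    · obtain ⟨H', h2, h4⟩ := exists_subset_card_eq (show k + 1 ≤ H.card by omega)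
      refine hHK G H' B k (by omega) h4 ?_
      intro u hu v hv _
      have h5 : (H'.filter (fun w => w ∈ B)).card ≤ 0 := by
        rw [Nat.le_zero, card_eq_zero, filter_eq_empty_iff]
        intro w hw
        exact hdis w (h2 hw)
      have h6 := hout H' (h2.trans hHHs) 0 h5 u hu v hv
      omega
  have hHHsc : H.card ≤ Hs.card := card_le_card hHHs
  obtain ⟨j, hj⟩ : ∃ j, Hs.card + j = k := ⟨k - Hs.card, by omega⟩
  have hj2 : 2000 * j ≤ k := by omega
  set Bs : Finset V := X.filter (fun v => v ∉ Hs ∧ 3 * Hs.card < 4 * (nb G Hs v).card) with hBs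
  set Xh : Finset V := X.filter (fun v => v ∉ Hs ∧ 8 * (j + 1) ≤ (nb G Bs v).card) with hXh
  have hBs1 : ∀ v ∈ Bs, v ∉ Hs ∧ 4 * (j + 1) ≤ (nb G Hs v).card := by
    intro v hv
    rw [hBs, mem_filter] at hv
    exact ⟨hv.2.1, by omega⟩
  have hXh1 : ∀ v ∈ Xh, v ∉ Hs ∧ 8 * (j + 1) ≤ (nb G Bs v).card := by
    intro v hv
    rw [hXh, mem_filter] at hv
    exact hv.2
  have hcnn : ∀ u ∈ Hs, ∀ v ∈ Hs, u ≠ v →
      k + 4 * (j + 1) ≤ ((cn G B u v).filter (fun w => w ∉ Hs)).card := by
    intro u hu v hv _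
    have h5 := hinB Hs hHHs
    have h6 := hout Hs (Subset.refl _) (Hs.card - H.card) (by omega) u hu v hv
    omega
  have h4j : 4 * (j + 1) ≤ Hs.card := by omega
  have hXhj : Xh.card ≤ j := by
    by_contra hcon
    obtain ⟨X', hX', hX'c⟩ := exists_subset_card_eq (show j + 1 ≤ Xh.card by omega)
    have he : ∀ i : Fin (2 * (j + 1 - X'.card)), False := by
      intro i
      have := i.2
      omega
    refine hrun (hEXC G Hs B Bs X' k j (fun i => (he i).elim) hj (by omega)
      (fun v hv => hXh1 v (hX' hv)) hBs1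
      ⟨fun i => (he i).elim, fun i => (he i).elim, fun i => (he i).elim,
        fun i => (he i).elim, fun i => (he i).elim, fun i => (he i).elim⟩ hcnn h4j)
  have hee : ee G (Bs.filter (fun v => v ∉ Xh)) (Bs.filter (fun v => v ∉ Xh)) ≤
      64 * (j - Xh.card + 1) * (j + 1) := by
    rcases hVCM G (Bs.filter (fun v => v ∉ Xh)) (2 * (j + 1 - Xh.card)) (8 * (j + 1)) (by
      intro v hv
      rw [mem_filter] at hv
      have h1 : ¬ (8 * (j + 1) ≤ (nb G Bs v).card) := by
        intro h2
        refine hv.2 ?_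
        rw [hXh, mem_filter]
        exact ⟨(mem_filter.1 hv.1).1, (hBs1 v hv.1).1, h2⟩
      have h3 : (nb G (Bs.filter (fun v => v ∉ Xh)) v).card ≤ (nb G Bs v).card := by
        refine card_le_card ?_
        intro w hw
        rw [mem_nb] at hw ⊢
        exact ⟨(mem_filter.1 hw.1).1, hw.2⟩
      omega) with ⟨M, hM⟩ | h
    · exact absurd (hEXC G Hs B Bs Xh k j M hj (by omega) hXh1 hBs1 hM hcnn h4j) hrun
    · refine h.trans (le_of_eq ?_)
      rw [show j + 1 - Xh.card = j - Xh.card + 1 by omega]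
      ring
  set R : Finset V := X.filter (fun v => v ∉ Hs ∧ v ∉ Xh ∧ v ∉ Bs) with hR
  have hXc : 23 * k ≤ 10 * X.card := by
    have h1 : Disjoint H B := by
      rw [disjoint_left]
      exact hdis
    have h2 : H.card + B.card ≤ X.card := by
      rw [← card_union_of_disjoint h1]
      exact card_le_card (union_subset hHX hBX)
    omega
  obtain ⟨r1, r2⟩ := hHBC G X Hs Xh Bs R k j (filter_subset _ _) (filter_subset _ _)
    (filter_subset _ _) (fun v hv => ⟨fun h => (hXh1 v h).1 hv, fun h => (hBs1 v h).1 hv⟩)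
    (fun v => by rw [hR, mem_filter]) hj hXhj hee
    (fun v hv => by
      rw [hR, mem_filter] at hv
      obtain ⟨v1, v2, v3, v4⟩ := hv
      rw [hBs, mem_filter] at v4
      rw [hXh, mem_filter] at v3
      have v5 : ¬ (3 * Hs.card < 4 * (nb G Hs v).card) := fun h => v4 ⟨v1, v2, h⟩
      have v6 : ¬ (8 * (j + 1) ≤ (nb G Bs v).card) := fun h => v3 ⟨v1, v2, h⟩
      exact ⟨by omega, by omega⟩) hj2 (by omega) hXc hff
  refine ⟨hHHsc.trans hHsk, R, filter_subset _ _, r1, ?_, r2⟩
  intro v hv hvH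
  rw [hR, mem_filter] at hv
  exact hv.2.1 (hHHs hvH)

end Pool.Agent.H10.VX
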