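import Pool.Agent.H30.VX.Targets

/-!
# Board vex_modules, row SEG (helper10): cycles through segments and hubs
-/

set_option autoImplicit false

open Finset Pool.Agent.H48.CE Pool.Agent.H30.VR

namespace Pool.Agent.H10.VX

open Pool.Agent.H30.VX

theorem sum_two (F : ℕ → ℕ) (M : ℕ) :
    ∑ n ∈ range (2 * M), F n = ∑ i ∈ range M, (F (2 * i) + F (2 * i + 1)) := by
  induction M with
  | zero => simp
  | succ M ih =>
    rw [show 2 * (M + 1) = 2 * M + 1 + 1 by ring, sum_range_succ, sum_range_succ, ih,
      sum_range_succ]
    ring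

theorem pf_SEG (hCAT : T_CAT) (hGRD : T_GRD) : T_SEG := by
  classical
  intro V G H B p z c σ h h' hH hne hinj hinj' hσ hdis hσH hhd hlt hcn hcard hc hpz
  -- the further hubs
  obtain ⟨g, hg, hgm⟩ := hGRD (V := V) (ι := Fin z) (fun _ => H)
    (univ.image h ∪ univ.image h') (by
      intro _
      have h1 : (univ.image h ∪ univ.image h').card ≤ p + p := by
        refine (card_union_le _ _).trans ?_
        have h2 : (univ.image h).card ≤ p := card_image_le.trans (by simp)
        have h3 : (univ.image h').card ≤ p := card_image_le.trans (by simp)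
        omega
      rw [Fintype.card_fin]
      omega)
  have hgH : ∀ j, g j ∈ H := fun j => (hgm j).1
  have hgh : ∀ j i, g j ≠ h i := by
    intro j i e
    refine (hgm j).2 (mem_union_left _ ?_)
    rw [e]
    exact mem_image_of_mem h (mem_univ i)
  have hgh' : ∀ j i, g j ≠ h' i := by
    intro j i e
    refine (hgm j).2 (mem_union_right _ ?_)
    rw [e]
    exact mem_image_of_mem h' (mem_univ i)
  -- blocks
  set a : Fin (p + z) → V := Fin.append h g with ha
  set b : Fin (p + z) → V := Fin.append h' g with hb
  set bl : Fin (p + z) → List V :=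
    Fin.append (fun i => h i :: (σ i ++ [h' i])) (fun j => [g j]) with hbl
  have haH : ∀ i, a i ∈ H := by
    intro i
    refine Fin.addCases (fun i => ?_) (fun i => ?_) i
    · rw [ha, Fin.append_left]; exact (hH i).1
    · rw [ha, Fin.append_right]; exact hgH i
  have hbH : ∀ i, b i ∈ H := by
    intro i
    refine Fin.addCases (fun i => ?_) (fun i => ?_) i
    · rw [hb, Fin.append_left]; exact (hH i).2
    · rw [hb, Fin.append_right]; exact hgH i
  have hab : ∀ i j, b i = a j → i = j ∧ p ≤ i.val := by
    intro i j
    refine Fin.addCases (fun i => ?_) (fun i => ?_) i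
    · refine Fin.addCases (fun j => ?_) (fun j => ?_) j
      · rw [hb, ha, Fin.append_left, Fin.append_left]
        exact fun e => absurd e.symm (hne j i)
      · rw [hb, ha, Fin.append_left, Fin.append_right]
        exact fun e => absurd e.symm (hgh' j i)
    · refine Fin.addCases (fun j => ?_) (fun j => ?_) j
      · rw [hb, ha, Fin.append_right, Fin.append_left]
        exact fun e => absurd e (hgh i j)
      · rw [hb, ha, Fin.append_right, Fin.append_right]
        exact fun e => ⟨by rw [hg e], by simp⟩
  have hK : 0 < p + z := by omega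
  have hnx : ∀ i : Fin (p + z), (i.val + 1) % (p + z) < p + z := fun i => Nat.mod_lt _ hK
  set nx : Fin (p + z) → Fin (p + z) := fun i => ⟨(i.val + 1) % (p + z), hnx i⟩ with hnxd
  have hbn : ∀ i, b i ≠ a (nx i) := by
    intro i e
    obtain ⟨e1, e2⟩ := hab i (nx i) e
    have e3 : i.val = (i.val + 1) % (p + z) := congrArg Fin.val e1
    rcases Nat.lt_or_ge (i.val + 1) (p + z) with h4 | h4
    · rw [Nat.mod_eq_of_lt h4] at e3
      omega
    · have h5 : i.val + 1 = p + z := by omega
      rw [h5, Nat.mod_self] at e3
      omega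
  -- connectors
  obtain ⟨f, hf, hfm⟩ := hGRD (V := V) (ι := Fin (p + z))
    (fun i => (cn G B (b i) (a (nx i))).filter (fun w => w ∉ H ∧ ∀ i, w ∉ σ i)) ∅ (by
      intro i
      have h1 := hcn (b i) (hbH i) (a (nx i)) (haH _) (hbn i)
      rw [Fintype.card_fin, card_empty]
      omega)
  have hfm1 : ∀ i, G.Adj (b i) (f i) ∧ G.Adj (a (nx i)) (f i) ∧ f i ∉ H ∧ ∀ j, f i ∉ σ j := by
    intro i
    have h1 := (hfm i).1
    rw [mem_filter, mem_cn] at h1
    exact ⟨h1.1.2.1, h1.1.2.2, h1.2.1, h1.2.2⟩
  -- properties of the blocks
  have hbl1 : ∀ i, bl i ≠ [] ∧ (bl i).Nodup ∧ (bl i).IsChain G.Adj ∧ (bl i).head? = some (a i) ∧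
      (bl i).getLast? = some (b i) ∧ ∀ v ∈ bl i, v ∈ H ∨ ∃ j, v ∈ σ j := by
    intro i
    refine Fin.addCases (fun i => ?_) (fun i => ?_) i
    · rw [hbl, ha, hb, Fin.append_left, Fin.append_left, Fin.append_left]
      obtain ⟨s1, s2, s3⟩ := hσ i
      refine ⟨List.cons_ne_nil _ _, ?_, ?_, rfl, ?_, ?_⟩
      · rw [List.nodup_cons, List.mem_append, List.mem_singleton]
        refine ⟨?_, ?_⟩
        · rintro (h1 | h1)
          · exact hσH i _ h1 (hH i).1
          · exact hne i i h1
        · refine List.Nodup.append s2 (List.nodup_singleton _) ?_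
          intro v hv hv'
          rw [List.mem_singleton] at hv'
          rw [hv'] at hv
          exact hσH i _ hv (hH i).2
      · rw [List.isChain_cons]
        refine ⟨?_, ?_⟩
        · intro y hy
          refine hhd i y ?_
          rwa [List.head?_append_of_ne_nil _ s1] at hy
        · rw [List.isChain_append]
          refine ⟨s3, List.isChain_singleton _, ?_⟩
          intro x hx y hy
          have e : h' i = y := by simpa using hy
          rw [← e]
          exact hlt i x hx
      · simp [List.getLast?_cons]
      · intro v hv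
        rw [List.mem_cons, List.mem_append, List.mem_singleton] at hv
        rcases hv with hv | hv | hv
        · left; rw [hv]; exact (hH i).1
        · right; exact ⟨i, hv⟩
        · left; rw [hv]; exact (hH i).2
    · rw [hbl, ha, hb, Fin.append_right, Fin.append_right, Fin.append_right]
      refine ⟨List.cons_ne_nil _ _, List.nodup_singleton _, List.isChain_singleton _, rfl, rfl, ?_⟩
      intro v hv
      rw [List.mem_singleton] at hv
      left; rw [hv]; exact hgH i
  have hbl2 : ∀ i j, i ≠ j → ∀ v ∈ bl i, v ∉ bl j := by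
    intro i j
    refine Fin.addCases (fun i => ?_) (fun i => ?_) i
    · refine Fin.addCases (fun j => ?_) (fun j => ?_) j
      · intro hij
        have hij' : i ≠ j := fun e => hij (by rw [e])
        rw [hbl, Fin.append_left, Fin.append_left]
        intro v hv hv'
        rw [List.mem_cons, List.mem_append, List.mem_singleton] at hv hv'
        rcases hv with hv | hv | hv
        · rcases hv' with hv' | hv' | hv'
          · exact hij' (hinj (hv.symm.trans hv'))
          · rw [hv] at hv'; exact hσH j _ hv' (hH i).1
          · exact hne i j (hv.symm.trans hv')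
        · rcases hv' with hv' | hv' | hv'
          · rw [hv'] at hv; exact hσH i _ hv (hH j).1
          · exact hdis i j hij' v hv hv'
          · rw [hv'] at hv; exact hσH i _ hv (hH j).2
        · rcases hv' with hv' | hv' | hv'
          · exact hne j i (hv'.symm.trans hv)
          · rw [hv] at hv'; exact hσH j _ hv' (hH i).2
          · exact hij' (hinj' (hv.symm.trans hv'))
      · intro _
        rw [hbl, Fin.append_left, Fin.append_right]
        intro v hv hv'
        rw [List.mem_singleton] at hv'
        rw [List.mem_cons, List.mem_append, List.mem_singleton] at hv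
        rcases hv with hv | hv | hv
        · exact hgh j i (hv'.symm.trans hv)
        · rw [hv'] at hv; exact hσH i _ hv (hgH j)
        · exact hgh' j i (hv'.symm.trans hv)
    · refine Fin.addCases (fun j => ?_) (fun j => ?_) j
      · intro _
        rw [hbl, Fin.append_left, Fin.append_right]
        intro v hv hv'
        rw [List.mem_singleton] at hv
        rw [List.mem_cons, List.mem_append, List.mem_singleton] at hv'
        rcases hv' with hv' | hv' | hv'
        · exact hgh i j (hv.symm.trans hv')
        · rw [hv] at hv'; exact hσH j _ hv' (hgH i)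
        · exact hgh' i j (hv.symm.trans hv')
      · intro hij
        rw [hbl, Fin.append_right, Fin.append_right]
        intro v hv hv'
        rw [List.mem_singleton] at hv hv'
        exact hij (by rw [hg (hv.symm.trans hv')])
  -- the lists
  set L : ℕ → List V := fun n =>
    if hn : n / 2 < p + z then (if n % 2 = 0 then bl ⟨n / 2, hn⟩ else [f ⟨n / 2, hn⟩]) else []
    with hL
  have hL0 : ∀ i : Fin (p + z), L (2 * i.val) = bl i := by
    intro i
    have e : 2 * i.val / 2 = i.val := by omega
    have e' : 2 * i.val / 2 < p + z := by rw [e]; exact i.2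
    rw [hL]
    simp only [e', dif_pos, show 2 * i.val % 2 = 0 by omega, if_true]
    congr 1
    exact Fin.ext e
  have hL1 : ∀ i : Fin (p + z), L (2 * i.val + 1) = [f i] := by
    intro i
    have e : (2 * i.val + 1) / 2 = i.val := by omega
    have e' : (2 * i.val + 1) / 2 < p + z := by rw [e]; exact i.2
    rw [hL]
    simp only [e', dif_pos, show ¬ (2 * i.val + 1) % 2 = 0 by omega, if_false]
    congr 2
    exact Fin.ext e
  have hpar : ∀ n < 2 * (p + z), ∃ i : Fin (p + z), n = 2 * i.val ∨ n = 2 * i.val + 1 := by
    intro n hn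
    exact ⟨⟨n / 2, by omega⟩, by simp only; omega⟩
  have hlen : ∑ n ∈ range (2 * (p + z)), (L n).length =
      ∑ i, (σ i).length + 3 * p + 2 * z := by
    rw [sum_two, sum_range (fun i => (L (2 * i)).length + (L (2 * i + 1)).length)]
    have e1 : ∀ i : Fin (p + z), (L (2 * i.val)).length + (L (2 * i.val + 1)).length =
        (bl i).length + 1 := by
      intro i
      rw [hL0, hL1]
      rfl
    rw [sum_congr rfl (fun i _ => e1 i), Fin.sum_univ_add]
    have e2 : ∀ i : Fin p, (bl (Fin.castAdd z i)).length + 1 = (σ i).length + 3 := by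
      intro i
      rw [hbl, Fin.append_left]
      simp only [List.length_cons, List.length_append, List.length_nil]
    have e3 : ∀ i : Fin z, (bl (Fin.natAdd p i)).length + 1 = 2 := by
      intro i
      rw [hbl, Fin.append_right]
      rfl
    rw [sum_congr rfl (fun i _ => e2 i), sum_congr rfl (fun i _ => e3 i), sum_add_distrib]
    simp only [sum_const, card_univ, Fintype.card_fin, smul_eq_mul]
    ring
  have h3 : 3 ≤ ∑ i, (σ i).length + 3 * p + 2 * z := by omega
  rw [← hlen]
  refine hCAT G (2 * (p + z)) L (by omega) ?_ ?_ ?_ (by rw [hlen]; exact h3)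
  · intro n hn
    obtain ⟨i, hi | hi⟩ := hpar n hn
    · rw [hi, hL0]
      exact ⟨(hbl1 i).1, (hbl1 i).2.1, (hbl1 i).2.2.1⟩
    · rw [hi, hL1]
      exact ⟨List.cons_ne_nil _ _, List.nodup_singleton _, List.isChain_singleton _⟩
  · intro n hn m hm hnm v hv hv'
    obtain ⟨i, hi⟩ := hpar n hn
    obtain ⟨j, hj⟩ := hpar m hm
    rcases hi with hi | hi <;> rcases hj with hj | hj
    · rw [hi, hL0] at hv
      rw [hj, hL0] at hv'
      exact hbl2 i j (fun e => hnm (by rw [hi, hj, e])) v hv hv'
    · rw [hi, hL0] at hv
      rw [hj, hL1, List.mem_singleton] at hv'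
      rw [hv'] at hv
      obtain ⟨_, _, q3, q4⟩ := hfm1 j
      rcases (hbl1 i).2.2.2.2.2 _ hv with h5 | ⟨l, h5⟩
      · exact q3 h5
      · exact q4 l h5
    · rw [hi, hL1, List.mem_singleton] at hv
      rw [hj, hL0] at hv'
      rw [hv] at hv'
      obtain ⟨_, _, q3, q4⟩ := hfm1 i
      rcases (hbl1 j).2.2.2.2.2 _ hv' with h5 | ⟨l, h5⟩
      · exact q3 h5
      · exact q4 l h5
    · rw [hi, hL1, List.mem_singleton] at hv
      rw [hj, hL1, List.mem_singleton] at hv'
      refine hnm ?_
      rw [hi, hj, hf (hv.symm.trans hv')]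
  · intro n hn x hx y hy
    obtain ⟨i, hi | hi⟩ := hpar n hn
    · have e1 : (n + 1) % (2 * (p + z)) = 2 * i.val + 1 := by
        rw [hi]
        exact Nat.mod_eq_of_lt (by have := i.2; omega)
      rw [e1, hL1] at hy
      rw [hi, hL0, (hbl1 i).2.2.2.2.1] at hx
      have ex : b i = x := by simpa using hx
      have ey : f i = y := by simpa using hy
      rw [← ex, ← ey]
      exact (hfm1 i).1
    · have e1 : (n + 1) % (2 * (p + z)) = 2 * (nx i).val := by
        rw [hi]
        have e2 : 2 * i.val + 1 + 1 = 2 * (i.val + 1) := by ring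
        rw [e2, Nat.mul_mod_mul_left]
      rw [e1, hL0, (hbl1 _).2.2.2.1] at hy
      rw [hi, hL1] at hx
      have ex : f i = x := by simpa using hx
      have ey : a (nx i) = y := by simpa using hy
      rw [← ex, ← ey]
      exact (hfm1 i).2.1.symm

end Pool.Agent.H10.VX
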